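import Pool.Agent.U762.EE.PRBe
import Pool.Agent.U15.EE.ANAt
import Pool.Agent.U329.EE.REACH
import Pool.Agent.U643.EE.BCe
import Pool.Agent.U57.EE.DETe
import Pool.Agent.U8.EE.EXPt
import Pool.Agent.U762.RP.All
import Pool.Agent.U60.CY.SUM
import Pool.Agent.U445.CY.BC

set_option autoImplicit false

/-! # Project EE: assembly -/

namespace Pool.Agent.U762.EE

open Finset MeasureTheory Filter Pool.Agent.U762.RP

theorem exc (d : ℕ) (m r : ℤ → ℤ) (hR : Rel d m r) (θ η ε s : ℝ) (h0 : 0 < θ) (h1 : θ < 1) (hη : 0 < η)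
    (hsum : (∑ j ∈ range d, fac d m η j ^ θ) < d) (he0 : 0 < ε) (he1 : ε < 1)
    (hmax : ∀ j ∈ range d, (1 - ε) * fac d m η j ^ θ < 1) (hs : 1 + 1 / θ < s) : ∃ K : ℕ, ∀ (B : ℕ)
      (μ : Measure ℤ) [IsProbabilityMeasure μ], μ {u : ℤ | (B : ℤ) < |u|} = 0 →
      (∀ u : ℤ, 0 ≤ u → u < (d : ℤ) ^ K → ε / (d : ℝ) ^ K ≤ μ.real {u}) →
      ∀ᵐ ω ∂(Measure.infinitePi fun _ : ℤ => μ), ∃ C : ℝ, ∀ (x : ℤ) (i : ℕ),
        |(((stp d m r ω)^[i] x : ℤ) : ℝ)| ≤ C * (2 + |(x : ℝ)|) ^ s := by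
  obtain ⟨K, hK⟩ := Pool.Agent.U15.EE.ANAt.t_ANAt Pool.Agent.U165.RP.REC.t_REC
    (Pool.Agent.U97.RP.t_WC Pool.Agent.U594.RP.t_AVG) d m r hR θ η h0 h1 hη hsum ε he0 he1 hmax
  refine ⟨K, fun B μ hμ hB hmass => ?_⟩
  obtain ⟨M, C, lam, hM, hC, hl0, hl1, h⟩ := hK (max B (d ^ K)) (le_max_right _ _)
  have hsum1 : ∑ u ∈ Icc (-((max B (d ^ K) : ℕ) : ℤ)) ((max B (d ^ K) : ℕ) : ℤ), μ.real {u} ≤ 1 := by
    have h1 : μ.real (↑(Icc (-((max B (d ^ K) : ℕ) : ℤ)) ((max B (d ^ K) : ℕ) : ℤ)) : Set ℤ) =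
        ∑ u ∈ Icc (-((max B (d ^ K) : ℕ) : ℤ)) ((max B (d ^ K) : ℕ) : ℤ), μ.real {u} := by
      rw [sum_measureReal_singleton]
    rw [← h1]
    exact measureReal_le_one
  have hbdd : μ {u : ℤ | ((max B (d ^ K) : ℕ) : ℤ) < |u|} = 0 := by
    refine measure_mono_null (fun u hu => ?_) hB
    have hu' : ((max B (d ^ K) : ℕ) : ℤ) < |u| := hu
    show (B : ℤ) < |u|
    exact lt_of_le_of_lt (Nat.cast_le.2 (le_max_left _ _)) hu'
  have hV := h M le_rfl (fun u => μ.real {u}) (fun u => measureReal_nonneg) hsum1 hmass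
  have hl : 0 < 1 - lam := by linarith
  have hre := Pool.Agent.U329.EE.t_REACH t_PRBe d m r μ (max B (d ^ K)) hbdd M C lam θ hM hC hl0 hl1 h0 hV
  have hbc := Pool.Agent.U643.EE.t_BCe d m r μ M (C / (1 - lam)) θ s hM (div_pos hC hl) h0 hs hre
  -- all orbits are finite
  have hLong : ∀ (L : ℕ) (x : ℤ), (Measure.infinitePi fun _ : ℤ => μ) {ω | Long d m r M L x ω} ≤
      ENNReal.ofReal (C * lam ^ L * (1 + |(x : ℝ)|)) := by
    intro L x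
    refine (Pool.Agent.U511.RP.t_PRB d m r μ (max B (d ^ K)) hbdd M L x).trans ?_
    refine ENNReal.ofReal_le_ofReal ?_
    have h2 : ∀ z : ℤ, ind M z ≤ V M θ z := by
      intro z
      unfold ind V
      split_ifs with hz
      · exact le_rfl
      · exact Real.one_le_rpow (hM.trans (not_lt.1 hz)) h0.le
    have h3 := Pool.Agent.U329.EE.Q_iter_mono (d := d) (m := m) (r := r) (w := fun u => μ.real {u})
      (B := max B (d ^ K)) (M := M) (fun u => measureReal_nonneg) h2 L x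
    refine h3.trans ((hV L x).trans ?_)
    apply mul_le_mul_of_nonneg_left _ (by positivity)
    refine (Pool.Agent.U329.EE.V_le M θ x).trans ?_
    have h4 : (0 : ℝ) ≤ |(x : ℝ)| := abs_nonneg _
    calc |(x : ℝ)| ^ θ ≤ (1 + |(x : ℝ)|) ^ θ := Real.rpow_le_rpow h4 (by linarith) h0.le
      _ ≤ (1 + |(x : ℝ)|) ^ (1 : ℝ) := Real.rpow_le_rpow_of_exponent_le (by linarith) h1.le
      _ = 1 + |(x : ℝ)| := Real.rpow_one _
  obtain ⟨c, hc, hfin⟩ := Pool.Agent.U445.CY.BC.t_BC d m r μ M C lam hM hC hl0 hl1 hLong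
  obtain ⟨c', hc', hdet⟩ := Pool.Agent.U898.RP.DET.t_DET d m r B M c hR.two_le hc
  filter_upwards [hbc, hfin, Pool.Agent.U60.CY.t_BDD B μ hB] with ω h5 h6 h7
  obtain ⟨C2, hC2⟩ := hdet ω h7 h6
  have hs0 : 0 ≤ s := by
    have : 0 < 1 / θ := by positivity
    linarith
  exact Pool.Agent.U57.EE.t_DETe d m r M s ω hs0 (fun x => (hC2 x).1) h5

/-- the 3x+1 map -/
theorem exc3 (θ ε s : ℝ) (h0 : 0 < θ) (h1 : θ < 1) (he0 : 0 < ε) (he1 : ε < 1)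
    (hmax : (1 - ε) * (3 / 2 : ℝ) ^ θ < 1) (hs : 1 + 1 / θ < s) : ∃ K : ℕ, ∀ (B : ℕ)
      (μ : Measure ℤ) [IsProbabilityMeasure μ], μ {u : ℤ | (B : ℤ) < |u|} = 0 →
      (∀ u : ℤ, 0 ≤ u → u < (2 : ℤ) ^ K → ε / (2 : ℝ) ^ K ≤ μ.real {u}) →
      ∀ᵐ ω ∂(Measure.infinitePi fun _ : ℤ => μ), ∃ C : ℝ, ∀ (x : ℤ) (i : ℕ),
        |(((cst 3 ω)^[i] x : ℤ) : ℝ)| ≤ C * (2 + |(x : ℝ)|) ^ s := by
  obtain ⟨η, hη, h2, h3⟩ := Pool.Agent.U8.EE.t_EXPt θ ε h0 h1 he0 he1 hmax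
  obtain ⟨K, hK⟩ := exc 2 (mq 3) rq (rel_col (by decide)) θ η ε s h0 h1 hη (by exact_mod_cast h2) he0 he1 h3 hs
  refine ⟨K, fun B μ hμ hB hm => ?_⟩
  have := hK B μ hB (by exact_mod_cast hm)
  simp only [cst_eq] at this
  exact this

end Pool.Agent.U762.EE
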