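import Pool.Agent.U762.EE.Stm
import Pool.Agent.U511.RP.PRB

set_option autoImplicit false

/-! # Project EE: from the environment to the annealed chain (PRBe) -/

namespace Pool.Agent.U762.EE

open Finset MeasureTheory Filter Pool.Agent.U762.RP

/-- the bound for a family of events -/
def Bd (μ : Measure ℤ) [IsProbabilityMeasure μ] (Ev : Finset ℤ → ℤ → Set (ℤ → ℤ)) (G : ℤ → ℝ) : Prop :=
  (∀ x, 0 ≤ G x) ∧ ∀ (A : Finset ℤ) (v : ℤ → ℤ) (x : ℤ),
    (Measure.infinitePi fun _ : ℤ => μ) {ω | (∀ a ∈ A, ω a = v a) ∧ ω ∈ Ev A x} ≤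
      (∏ a ∈ A, μ {v a}) * ENNReal.ofReal (G x)

theorem step (d : ℕ) (m r : ℤ → ℤ) (μ : Measure ℤ) [IsProbabilityMeasure μ] (B : ℕ) (M : ℝ)
    (hB : μ {u : ℤ | (B : ℤ) < |u|} = 0) (Ev Ev' : Finset ℤ → ℤ → Set (ℤ → ℤ)) (G : ℤ → ℝ)
    (h : Bd μ Ev G)
    (hE : ∀ A x ω, ω ∈ Ev' A x → M ≤ |(x : ℝ)| ∧ x ∉ A ∧ ω ∈ Ev (insert x A) (stp d m r ω x)) :
    Bd μ Ev' (Q d m r (fun u => μ.real {u}) B M G) := by
  refine ⟨fun x => Pool.Agent.U511.RP.Q_nonneg d m r _ (fun _ => measureReal_nonneg) B M G h.1 x, ?_⟩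
  intro A v x
  by_cases hx : |(x : ℝ)| < M
  · have he : {ω : ℤ → ℤ | (∀ a ∈ A, ω a = v a) ∧ ω ∈ Ev' A x} = ∅ := by
      ext ω
      simp only [Set.mem_ofPred_eq, Set.mem_empty_iff_false, iff_false]
      rintro ⟨-, hw⟩
      exact absurd hx (not_lt.2 (hE A x ω hw).1)
    rw [he, measure_empty]
    exact zero_le
  by_cases hxA : x ∈ A
  · have he : {ω : ℤ → ℤ | (∀ a ∈ A, ω a = v a) ∧ ω ∈ Ev' A x} = ∅ := by
      ext ω
      simp only [Set.mem_ofPred_eq, Set.mem_empty_iff_false, iff_false]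
      rintro ⟨-, hw⟩
      exact (hE A x ω hw).2.1 hxA
    rw [he, measure_empty]
    exact zero_le
  have hsub : {ω : ℤ → ℤ | (∀ a ∈ A, ω a = v a) ∧ ω ∈ Ev' A x} ⊆
      {ω | (B : ℤ) < |ω x|} ∪ ⋃ u ∈ Icc (-(B : ℤ)) B,
        {ω | (∀ a ∈ insert x A, ω a = Function.update v x u a) ∧ ω ∈ Ev (insert x A) (T d m r x + u)} := by
    rintro ω ⟨h1, h2⟩
    by_cases hb : (B : ℤ) < |ω x|
    · exact Or.inl hb
    right
    have hb' := abs_le.1 (not_lt.1 hb)
    simp only [Set.mem_iUnion]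
    refine ⟨ω x, Finset.mem_Icc.2 ⟨hb'.1, hb'.2⟩, ?_, ?_⟩
    · intro a ha
      rcases Finset.mem_insert.1 ha with rfl | ha
      · rw [Function.update_self]
      · rw [Function.update_of_ne (ne_of_mem_of_not_mem ha hxA)]
        exact h1 a ha
    · exact (hE A x ω h2).2.2
  refine (measure_mono hsub).trans ?_
  refine (measure_union_le _ _).trans ?_
  have h0 : (Measure.infinitePi fun _ : ℤ => μ) {ω : ℤ → ℤ | (B : ℤ) < |ω x|} = 0 := by
    have hp : {ω : ℤ → ℤ | (B : ℤ) < |ω x|} =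
        Set.pi (({x} : Finset ℤ) : Set ℤ) (fun _ => {u : ℤ | (B : ℤ) < |u|}) := by
      ext ω
      simp
    rw [hp, Measure.infinitePi_pi]
    · simp [hB]
    · intro i _
      exact MeasurableSet.of_discrete
  rw [h0, zero_add]
  refine (measure_biUnion_finset_le _ _).trans ?_
  refine (Finset.sum_le_sum fun u _ => h.2 (insert x A) (Function.update v x u) (T d m r x + u)).trans ?_
  have hQ : Q d m r (fun u => μ.real {u}) B M G x =
      ∑ u ∈ Icc (-(B : ℤ)) B, μ.real {u} * G (T d m r x + u) := by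
    unfold Q
    rw [if_neg hx]
  rw [hQ, ENNReal.ofReal_sum_of_nonneg, Finset.mul_sum]
  · refine Finset.sum_le_sum fun u _ => le_of_eq ?_
    rw [Finset.prod_insert hxA, Function.update_self,
      ENNReal.ofReal_mul measureReal_nonneg, ofReal_measureReal]
    have hpr : ∏ a ∈ A, μ {Function.update v x u a} = ∏ a ∈ A, μ {v a} := by
      refine Finset.prod_congr rfl fun a ha => ?_
      rw [Function.update_of_ne (ne_of_mem_of_not_mem ha hxA)]
    rw [hpr]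
    ring
  · intro u _
    exact mul_nonneg measureReal_nonneg (h.1 _)

/-- the base: cylinders -/
theorem base (μ : Measure ℤ) [IsProbabilityMeasure μ] (Ev : Finset ℤ → ℤ → Set (ℤ → ℤ)) (G : ℤ → ℝ)
    (h0 : ∀ x, 0 ≤ G x) (h1 : ∀ A x ω, ω ∈ Ev A x → 1 ≤ G x) : Bd μ Ev G := by
  refine ⟨h0, fun A v x => ?_⟩
  by_cases hG : 1 ≤ G x
  · have hsub : {ω : ℤ → ℤ | (∀ a ∈ A, ω a = v a) ∧ ω ∈ Ev A x} ⊆
        Set.pi (A : Set ℤ) (fun a => {v a}) := by
      rintro ω ⟨h1, -⟩ a ha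
      exact h1 a ha
    refine (measure_mono hsub).trans ?_
    rw [Measure.infinitePi_pi]
    · have : (1 : ENNReal) ≤ ENNReal.ofReal (G x) := by
        rw [← ENNReal.ofReal_one]
        exact ENNReal.ofReal_le_ofReal hG
      calc ∏ a ∈ A, μ {v a} = (∏ a ∈ A, μ {v a}) * 1 := (mul_one _).symm
        _ ≤ _ := by gcongr
    · intro i _
      exact measurableSet_singleton _
  · have he : {ω : ℤ → ℤ | (∀ a ∈ A, ω a = v a) ∧ ω ∈ Ev A x} = ∅ := by
      ext ω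
      simp only [Set.mem_ofPred_eq, Set.mem_empty_iff_false, iff_false]
      rintro ⟨-, hw⟩
      exact hG (h1 A x ω hw)
    rw [he, measure_empty]
    exact zero_le

/-- the first `n` points are new and of modulus `≥ M` -/
def New (d : ℕ) (m r : ℤ → ℤ) (M : ℝ) (n : ℕ) (A : Finset ℤ) (x : ℤ) (ω : ℤ → ℤ) : Prop :=
  (∀ i : ℕ, i < n → M ≤ |(((stp d m r ω)^[i] x : ℤ) : ℝ)| ∧ (stp d m r ω)^[i] x ∉ A) ∧
    ∀ i j : ℕ, i < j → j < n → (stp d m r ω)^[i] x ≠ (stp d m r ω)^[j] x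

theorem New.tail {d : ℕ} {m r : ℤ → ℤ} {M : ℝ} {n : ℕ} {A : Finset ℤ} {x : ℤ} {ω : ℤ → ℤ}
    (h : New d m r M (n + 1) A x ω) :
    M ≤ |(x : ℝ)| ∧ x ∉ A ∧ New d m r M n (insert x A) (stp d m r ω x) ω := by
  have h0 := h.1 0 (Nat.succ_pos _)
  simp only [Function.iterate_zero, id_eq] at h0
  refine ⟨h0.1, h0.2, fun i hi => ?_, fun i j hij hj => ?_⟩
  · have h1 := h.1 (i + 1) (by omega)
    rw [Function.iterate_succ_apply] at h1
    refine ⟨h1.1, ?_⟩
    rw [Finset.mem_insert, not_or]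
    refine ⟨fun he => h.2 0 (i + 1) (Nat.succ_pos _) (by omega) ?_, h1.2⟩
    rw [Function.iterate_zero, id_eq, Function.iterate_succ_apply]
    exact he.symm
  · have := h.2 (i + 1) (j + 1) (by omega) (by omega)
    rwa [Function.iterate_succ_apply, Function.iterate_succ_apply] at this

/-- hitting a set after `l` steps -/
theorem hit (d : ℕ) (m r : ℤ → ℤ) (μ : Measure ℤ) [IsProbabilityMeasure μ] (B : ℕ) (M : ℝ)
    (hB : μ {u : ℤ | (B : ℤ) < |u|} = 0) (Y : ℝ) (l : ℕ) :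
    Bd μ (fun A x => {ω | New d m r M l A x ω ∧ Y ≤ |(((stp d m r ω)^[l] x : ℤ) : ℝ)|})
      ((Q d m r (fun u => μ.real {u}) B M)^[l] (fun z => if Y ≤ |(z : ℝ)| then 1 else 0)) := by
  induction l with
  | zero =>
    refine base μ _ _ (fun x => ?_) (fun A x ω h => ?_)
    · simp only [Function.iterate_zero, id_eq]
      split_ifs <;> norm_num
    · obtain ⟨-, h1⟩ := h
      simp only [Function.iterate_zero, id_eq] at h1 ⊢
      rw [if_pos h1]
  | succ l ih =>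
    rw [Function.iterate_succ_apply']
    refine step d m r μ B M hB _ _ _ ih (fun A x ω h => ?_)
    obtain ⟨h0, h1⟩ := h
    obtain ⟨ha, hb, hc⟩ := h0.tail
    refine ⟨ha, hb, hc, ?_⟩
    rw [← Function.iterate_succ_apply]
    exact h1

theorem t_PRBe : S_PRBe := by
  intro d m r μ hμ B hB M Y L x
  have h := (hit d m r μ B M hB Y L).2 ∅ (fun _ => 0) x
  simp only [Finset.notMem_empty, false_imp_iff, imp_true_iff, true_and, Finset.prod_empty, one_mul] at h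
  refine le_trans (measure_mono ?_) h
  rintro ω ⟨h1, h2, h3⟩
  exact ⟨⟨fun i hi => ⟨h1 i hi, Finset.notMem_empty _⟩, h2⟩, h3⟩

end Pool.Agent.U762.EE
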