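import Pool.Agent.U762.RP.Fin

set_option autoImplicit false

/-!
# Project EE: maximum excursions of the randomly perturbed 3x+1 map

Perturbed map `x ↦ T(x) + ω_x` of project RP.  If the perturbations occur with probability `> 1/3`, all orbits of
the perturbed 3x+1 map are almost surely bounded by `C (2+|x|)^(2+δ)`; in general the exponent is
`1 + 1/θ`, `θ < 1`, `(1-ε) (3/2)^θ < 1`.
-/

namespace Pool.Agent.U762.EE

open Finset MeasureTheory Filter Pool.Agent.U762.RP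

/-- **ANAt**, from REC and WC (adapt `Pool/Agent/U111/RP/ANA.lean`, see also `Pool/Agent/U312/RP/ANAm.lean` where the
constants do not depend on `M`): here the exponent `θ` is given.  `R = max_j fac^θ` (or any `R > 0` with `fac^θ ≤ R`,
`(1-ε) R < 1`), `ρ = (∑ fac^θ)/d < 1`, `K ≥ 1` with `g K ≤ 1/2` (REC), `M₀` from WC.  `Q^K V ≤ V/2` pointwise, `Q` is
monotone and linear, `Q^s V ≤ C V` for `s < K`; `lam = 2^(-1/K)`. -/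
def S_ANAt : Prop := ∀ (d : ℕ) (m r : ℤ → ℤ), Rel d m r → ∀ θ η : ℝ, 0 < θ → θ < 1 → 0 < η →
  (∑ j ∈ range d, fac d m η j ^ θ) < d → ∀ ε : ℝ, 0 < ε → ε < 1 → (∀ j ∈ range d, (1 - ε) * fac d m η j ^ θ < 1) →
    ∃ K : ℕ, ∀ B : ℕ, d ^ K ≤ B → ∃ M₀ C lam : ℝ, 1 ≤ M₀ ∧ 0 < C ∧ 0 < lam ∧ lam < 1 ∧ ∀ M : ℝ, M₀ ≤ M →
      ∀ w : ℤ → ℝ, (∀ u, 0 ≤ w u) → ∑ u ∈ Icc (-(B : ℤ)) B, w u ≤ 1 →
      (∀ u : ℤ, 0 ≤ u → u < (d : ℤ) ^ K → ε / (d : ℝ) ^ K ≤ w u) → ∀ (L : ℕ) (x : ℤ),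
        (Q d m r w B M)^[L] (V M θ) x ≤ C * lam ^ L * V M θ x

/-- the first `L` points of the orbit are different and of modulus at least `M`, the next one has modulus `≥ Y` -/
def Reach (d : ℕ) (m r : ℤ → ℤ) (M Y : ℝ) (L : ℕ) (x : ℤ) (ω : ℤ → ℤ) : Prop :=
  (∀ i : ℕ, i < L → M ≤ |(((stp d m r ω)^[i] x : ℤ) : ℝ)|) ∧
    (∀ i j : ℕ, i < j → j < L → (stp d m r ω)^[i] x ≠ (stp d m r ω)^[j] x) ∧
    Y ≤ |(((stp d m r ω)^[L] x : ℤ) : ℝ)|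

/-- **PRBe** (helper762): as PRB. -/
def S_PRBe : Prop := ∀ (d : ℕ) (m r : ℤ → ℤ) (μ : Measure ℤ) [IsProbabilityMeasure μ] (B : ℕ),
  μ {u : ℤ | (B : ℤ) < |u|} = 0 → ∀ (M Y : ℝ) (L : ℕ) (x : ℤ),
    (Measure.infinitePi fun _ : ℤ => μ) {ω | Reach d m r M Y L x ω} ≤
      ENNReal.ofReal ((Q d m r (fun u => μ.real {u}) B M)^[L] (fun z => if Y ≤ |(z : ℝ)| then 1 else 0) x)

/-- **REACH**, from PRBe: `1_{Y ≤ |z|} ≤ Y^(-θ) V M θ z` for `Y ≥ M ≥ 1`, `Q` is monotone and linear; sum over `L`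
(`measure_iUnion_le`, geometric series). -/
def S_REACH : Prop := S_PRBe → ∀ (d : ℕ) (m r : ℤ → ℤ) (μ : Measure ℤ) [IsProbabilityMeasure μ] (B : ℕ),
  μ {u : ℤ | (B : ℤ) < |u|} = 0 → ∀ M C lam θ : ℝ, 1 ≤ M → 0 < C → 0 < lam → lam < 1 → 0 < θ →
    (∀ (L : ℕ) (x : ℤ), (Q d m r (fun u => μ.real {u}) B M)^[L] (V M θ) x ≤ C * lam ^ L * V M θ x) →
    ∀ (Y : ℝ) (x : ℤ), M ≤ Y → (Measure.infinitePi fun _ : ℤ => μ) {ω | ∃ L : ℕ, Reach d m r M Y L x ω} ≤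
      ENNReal.ofReal (C / (1 - lam) * |(x : ℝ)| ^ θ * Y ^ (-θ))

/-- **BCe** (Borel–Cantelli): with `Y = |x|^s`, `s > 1 + 1/θ`, the bound is `C' |x|^(-θ(s-1))`, `θ(s-1) > 1`, summable
over `|x| ≥ M` (only finitely many `x` have `|x| < M`). -/
def S_BCe : Prop := ∀ (d : ℕ) (m r : ℤ → ℤ) (μ : Measure ℤ) [IsProbabilityMeasure μ] (M C θ s : ℝ), 1 ≤ M →
  0 < C → 0 < θ → 1 + 1 / θ < s →
    (∀ (Y : ℝ) (x : ℤ), M ≤ Y → (Measure.infinitePi fun _ : ℤ => μ) {ω | ∃ L : ℕ, Reach d m r M Y L x ω} ≤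
      ENNReal.ofReal (C * |(x : ℝ)| ^ θ * Y ^ (-θ))) →
    ∀ᵐ ω ∂(Measure.infinitePi fun _ : ℤ => μ),
      {x : ℤ | ∃ L : ℕ, Reach d m r M (|(x : ℝ)| ^ s) L x ω}.Finite

/-- **DETe** (deterministic).  All orbits finite, and only finitely many `x` reach `|x|^s` before a repetition or an
entrance into `|y| < M`.  Let `F` be the finite set of these `x` and of the `|x| < M`, `D` a bound for all terms of
the orbits of the elements of `F`.  For `x ∉ F` all terms are `≤ max D (|x|^s)`: take the least `i` with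
`|X_i| > |x|^s`, `|X_i| > D`; no earlier term is in `F` (else `|X_i| ≤ D`), so all earlier terms have modulus `≥ M`;
they are different (otherwise `X_i` equals an earlier term, by periodicity); so `Reach` holds with `L = i`. -/
def S_DETe : Prop := ∀ (d : ℕ) (m r : ℤ → ℤ) (M s : ℝ) (ω : ℤ → ℤ), 0 ≤ s →
  (∀ x : ℤ, (Set.range fun i : ℕ => (stp d m r ω)^[i] x).Finite) →
    {x : ℤ | ∃ L : ℕ, Reach d m r M (|(x : ℝ)| ^ s) L x ω}.Finite →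
    ∃ C : ℝ, ∀ (x : ℤ) (i : ℕ), |(((stp d m r ω)^[i] x : ℤ) : ℝ)| ≤ C * (2 + |(x : ℝ)|) ^ s

/-- **EXPt** (numerical; `mq 3 0 = 1`, `mq 3 1 = 3`, so `fac 2 (mq 3) η 0 = (1+η)/2`, `fac 2 (mq 3) η 1 = 3(1+η)/2`).
`(1/2)^θ + (3/2)^θ < 2` for `0 < θ < 1` (strict concavity of `t ↦ t^θ`: the mean of `1/2` and `3/2` is `1`), and
`(1-ε) (3/2)^θ < 1`; then continuity in `η` at `0`. -/
def S_EXPt : Prop := ∀ θ ε : ℝ, 0 < θ → θ < 1 → 0 < ε → ε < 1 → (1 - ε) * (3 / 2 : ℝ) ^ θ < 1 →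
  ∃ η : ℝ, 0 < η ∧ (∑ j ∈ range 2, fac 2 (mq 3) η j ^ θ) < 2 ∧ ∀ j ∈ range 2, (1 - ε) * fac 2 (mq 3) η j ^ θ < 1

end Pool.Agent.U762.EE
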